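import Mathlib

open Set Filter Topology

namespace Pool.Agent.Results.MP_69a59d_an.Bounded

theorem result (H : Type*) [NormedAddCommGroup H] [InnerProductSpace ℂ H] [CompleteSpace H]
    (T : H →ₗ[ℂ] H) (hT : ∀ x, ‖T x‖ ^ 2 ≤ ‖T (T x)‖ * ‖x‖) :
    ∃ C : ℝ, ∀ x, ‖T x‖ ≤ C * ‖x‖ := by
  let G0 : Submodule ℂ (H × H × H) := LinearMap.range (LinearMap.id.prod (T.prod (T ∘ₗ T)))
  let G := G0.topologicalClosure
  have hmem : ∀ x, (x, T x, T (T x)) ∈ G := fun x => G0.le_topologicalClosure ⟨x, rfl⟩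
  have hineq : ∀ p ∈ G, ‖p.2.1‖ ^ 2 ≤ ‖p.2.2‖ * ‖p.1‖ := by
    have hcl : IsClosed {p : H × H × H | ‖p.2.1‖ ^ 2 ≤ ‖p.2.2‖ * ‖p.1‖} :=
      isClosed_le (by fun_prop) (by fun_prop)
    have : (G0 : Set (H × H × H)) ⊆ {p : H × H × H | ‖p.2.1‖ ^ 2 ≤ ‖p.2.2‖ * ‖p.1‖} := by
      rintro _ ⟨x, rfl⟩
      exact hT x
    exact fun p hp => closure_minimal this hcl hp
  have hval : ∀ p ∈ G, p.2.1 = T p.1 := fun p hp => by
    have := hineq _ (G.sub_mem hp (hmem p.1))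
    simp only [Prod.fst_sub, Prod.snd_sub, sub_self, norm_zero, mul_zero] at this
    have h0 : ‖p.2.1 - T p.1‖ = 0 := by nlinarith [norm_nonneg (p.2.1 - T p.1)]
    exact sub_eq_zero.1 (norm_eq_zero.1 h0)
  let L : G →L[ℂ] H := (ContinuousLinearMap.fst ℂ H (H × H)).comp G.subtypeL
  have hL : Function.Surjective L := fun x => ⟨⟨_, hmem x⟩, rfl⟩
  obtain ⟨C, -, hC⟩ := L.exists_preimage_norm_le hL
  refine ⟨C, fun x => ?_⟩
  obtain ⟨p, hp, hp2⟩ := hC x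
  have h1 : p.1.1 = x := hp
  rw [← h1, ← hval p.1 p.2, h1]
  exact ((norm_fst_le p.1.2).trans (norm_snd_le p.1)).trans hp2

end Pool.Agent.Results.MP_69a59d_an.Bounded
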